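import Pool.Agent.X20.Tr.LogR

/-!
# Quantum ergodicity along sparse sequences of indices

From Mathlib: `ProbabilityMeasure M`: the Borel probability measures on `M` with the topology of weak convergence;
`𝓟 A`: the principal filter of `A` (`Tendsto x (atTop ⊓ 𝓟 A) (𝓝 y)`: `x n` tends to `y` as `n → ∞` in `A`); `dimH E`: the
Hausdorff dimension of `E`; `⌊x⌋₊`: the integer part; `𝓝`: neighbourhoods.
-/

set_option autoImplicit false

namespace Pool.Agent.Results.MP_ed6ab2_an.AlongDilatedPowers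

open Finset Filter Topology MeasureTheory
open Pool.Agent.X20.Tr

universe u

open Classical in
/-- the number of the `n`, `1 ≤ n ≤ N`, in `B` -/
noncomputable def count (B : Set ℕ) (N : ℕ) : ℕ := ((Icc 1 N).filter (fun n => n ∈ B)).card

/-- `B` has density zero -/
def Null (B : Set ℕ) : Prop := Tendsto (fun N : ℕ => (count B N : ℝ) / N) atTop (𝓝 0)

/-- the sequence `x` converges to `y` along a set of indices of density one -/
def ConvDensityOne {Y : Type u} [TopologicalSpace Y] (x : ℕ → Y) (y : Y) : Prop :=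
  ∃ A : Set ℕ, Null Aᶜ ∧ Tendsto x (atTop ⊓ 𝓟 A) (𝓝 y)

lemma null_iff (B : Set ℕ) : Null B ↔ ∀ ε : ℝ, 0 < ε → ∃ N₀ : ℕ, ∀ N : ℕ, N₀ ≤ N → (count B N : ℝ) ≤ ε * N := by
  unfold Null
  rw [Metric.tendsto_atTop]
  constructor
  · intro h ε hε
    obtain ⟨N₀, h1⟩ := h ε hε
    refine ⟨max N₀ 1, fun N hN => ?_⟩
    have hN0 : (0 : ℝ) < N := by
      have : 0 < N := (le_max_right N₀ 1).trans hN
      exact_mod_cast this
    have h2 := h1 N ((le_max_left _ _).trans hN)
    rw [Real.dist_eq, sub_zero, abs_of_nonneg (by positivity), div_lt_iff₀ hN0] at h2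
    exact h2.le
  · intro h ε hε
    obtain ⟨N₀, h1⟩ := h (ε / 2) (by positivity)
    refine ⟨max N₀ 1, fun N hN => ?_⟩
    have hN0 : (0 : ℝ) < N := by
      have : 0 < N := (le_max_right N₀ 1).trans hN
      exact_mod_cast this
    have h2 := h1 N ((le_max_left _ _).trans hN)
    rw [Real.dist_eq, sub_zero, abs_of_nonneg (by positivity), div_lt_iff₀ hN0]
    nlinarith

lemma count_sub {B B' : Set ℕ} {S : Finset ℕ} {N : ℕ} (h : ∀ n, n ≤ N → n ∈ B → n ∈ S ∨ n ∈ B') :
    count B N ≤ S.card + count B' N := by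
  classical
  unfold count
  have h6 : (Icc 1 N).filter (fun n => n ∈ B) ⊆ S ∪ (Icc 1 N).filter (fun n => n ∈ B') := by
    intro n hn
    rw [mem_filter] at hn
    rw [mem_union, mem_filter]
    rcases h n (mem_Icc.1 hn.1).2 hn.2 with h7 | h7
    · exact Or.inl h7
    · exact Or.inr ⟨hn.1, h7⟩
  exact (card_le_card h6).trans (card_union_le _ _)

lemma count_mono {B B' : Set ℕ} {N : ℕ} (h : ∀ n, n ≤ N → n ∈ B → n ∈ B') : count B N ≤ count B' N := by
  have := count_sub (S := ∅) (N := N) (B := B) (B' := B') fun n hn hB => Or.inr (h n hn hB)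
  simpa using this

/-- convergence along a set of density one -/
lemma conv_iff {Y : Type u} [TopologicalSpace Y] [FirstCountableTopology Y] (x : ℕ → Y) (y : Y) :
    ConvDensityOne x y ↔ ∀ U ∈ 𝓝 y, Null {n | x n ∉ U} := by
  classical
  constructor
  · rintro ⟨A, hA, hx⟩ U hU
    have h1 : ∀ᶠ n in atTop ⊓ 𝓟 A, x n ∈ U := hx hU
    rw [eventually_inf_principal, eventually_atTop] at h1
    obtain ⟨n₀, h1⟩ := h1
    rw [null_iff] at hA ⊢
    intro ε hε
    obtain ⟨N₀, h2⟩ := hA (ε / 2) (by positivity)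
    refine ⟨max N₀ ⌈(n₀ : ℝ) / (ε / 2)⌉₊, fun N hN => ?_⟩
    have h3 := h2 N ((le_max_left _ _).trans hN)
    have h4 : (n₀ : ℝ) / (ε / 2) ≤ N := (Nat.le_ceil _).trans (by exact_mod_cast (le_max_right _ _).trans hN)
    rw [div_le_iff₀ (by positivity)] at h4
    have h5 : count {n | x n ∉ U} N ≤ (range n₀).card + count Aᶜ N := by
      apply count_sub
      intro n _ hn
      rcases lt_or_ge n n₀ with h7 | h7
      · exact Or.inl (mem_range.2 h7)
      · exact Or.inr fun h8 => hn (h1 n h7 h8)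
    rw [card_range] at h5
    have h6 : (count {n | x n ∉ U} N : ℝ) ≤ n₀ + count Aᶜ N := by exact_mod_cast h5
    linarith
  · intro h
    obtain ⟨U, hU⟩ := (𝓝 y).exists_antitone_basis
    have h1 : ∀ j : ℕ, ∃ N₀ : ℕ, ∀ N : ℕ, N₀ ≤ N → (count {n | x n ∉ U j} N : ℝ) ≤ 1 / ((j : ℝ) + 1) * N := fun j =>
      (null_iff _).1 (h (U j) (hU.mem j)) _ (by positivity)
    choose K hK using h1
    obtain ⟨M, hM⟩ : ∃ M : ℕ → ℕ, ∀ j, M j = ∑ i ∈ range (j + 1), K i := ⟨_, fun _ => rfl⟩
    have hMK : ∀ j, K j ≤ M j := fun j => by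
      rw [hM]
      exact single_le_sum (f := K) (fun _ _ => Nat.zero_le _) (mem_range.2 (Nat.lt_succ_self j))
    obtain ⟨g, hg⟩ : ∃ g : ℕ → ℕ, ∀ n, g n = Nat.findGreatest (fun j => M j ≤ n) n := ⟨_, fun _ => rfl⟩
    have hgm : ∀ n n', n ≤ n' → g n ≤ g n' := by
      intro n n' hn
      rw [hg, hg]
      exact Nat.findGreatest_mono (fun j hj => le_trans hj hn) hn
    have hgj : ∀ j n, M j ≤ n → j ≤ n → j ≤ g n := by
      intro j n h2 h3
      rw [hg]
      exact Nat.le_findGreatest h3 h2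
    have hgM : ∀ n, M 0 ≤ n → M (g n) ≤ n := by
      intro n h2
      rw [hg]
      exact Nat.findGreatest_spec (P := fun j => M j ≤ n) (Nat.zero_le n) h2
    refine ⟨{n | x n ∈ U (g n)}, ?_, ?_⟩
    · rw [null_iff]
      intro ε hε
      obtain ⟨j, hj⟩ := exists_nat_one_div_lt hε
      refine ⟨max (M 0) (max (M j) j), fun N hN => ?_⟩
      have h2 : M 0 ≤ N := (le_max_left _ _).trans hN
      have h3 : j ≤ g N := hgj j N ((le_max_left _ _).trans ((le_max_right _ _).trans hN))
        ((le_max_right _ _).trans ((le_max_right _ _).trans hN))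
      have h4 := hK (g N) N ((hMK _).trans (hgM N h2))
      have h5 : count ({n | x n ∈ U (g n)})ᶜ N ≤ count {n | x n ∉ U (g N)} N := by
        apply count_mono
        intro n hn hB h6
        exact hB (hU.antitone (hgm n N hn) h6)
      have h6 : (count ({n | x n ∈ U (g n)})ᶜ N : ℝ) ≤ count {n | x n ∉ U (g N)} N := by exact_mod_cast h5
      have h7 : 1 / (((g N : ℕ) : ℝ) + 1) ≤ ε := by
        refine le_trans ?_ hj.le
        apply one_div_le_one_div_of_le (by positivity)
        have : (j : ℝ) ≤ (g N : ℕ) := by exact_mod_cast h3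
        linarith
      have h8 : 1 / (((g N : ℕ) : ℝ) + 1) * (N : ℝ) ≤ ε * N := mul_le_mul_of_nonneg_right h7 (Nat.cast_nonneg _)
      linarith
    · intro V hV
      obtain ⟨j, hj⟩ := hU.mem_iff.1 hV
      rw [Filter.mem_map, mem_inf_principal, mem_atTop_sets]
      refine ⟨max (M j) j, fun n hn hnA => ?_⟩
      have h3 : j ≤ g n := hgj j n ((le_max_left _ _).trans hn) ((le_max_right _ _).trans hn)
      exact hj (hU.antitone h3 hnA)

lemma rav_ind (B : Set ℕ) (N : ℕ) : rav (fun n => ind B n) N = (count B N : ℝ) / N := by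
  classical
  unfold rav count
  rw [card_filter]
  push_cast
  congr 1

/-- For every real `c > 1` there is `0 < κ < 1` such that for every compact metric space `M` and all probability measures
`ν i k` (`i, k = 0, 1, …`) and `μ i` on `M` there is a set `E` of real numbers of Hausdorff dimension at most `1 - κ` such
that for every real `α > 0` outside `E` and every `i`: `ν i k` converges weakly to `μ i` as `k → ∞` along a set of indices
`k` of density one if and only if `ν i ⌊α n ^ c⌋` converges weakly to `μ i` as `n → ∞` along a set of indices `n` of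
density one. -/
theorem result (c : ℝ) (hc : 1 < c) : ∃ κ : ℝ, 0 < κ ∧ κ < 1 ∧
    ∀ (M : Type u) [MetricSpace M] [CompactSpace M] [MeasurableSpace M] [BorelSpace M]
      (ν : ℕ → ℕ → ProbabilityMeasure M) (μ : ℕ → ProbabilityMeasure M),
    ∃ E : Set ℝ, dimH E ≤ ENNReal.ofReal (1 - κ) ∧ ∀ α : ℝ, 0 < α → α ∉ E → ∀ i : ℕ,
      ConvDensityOne (ν i) (μ i) ↔ ConvDensityOne (fun n => ν i ⌊α * (n : ℝ) ^ c⌋₊) (μ i) := by
  obtain ⟨κ, hκ0, hκ1, H⟩ := ravSparse c hc
  refine ⟨κ, hκ0, hκ1, fun M _ _ _ _ ν μ => ?_⟩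
  choose U hU using fun i => (𝓝 (μ i)).exists_antitone_basis
  obtain ⟨E, hE, h⟩ := H (ℕ × ℕ) (fun t n => ind {k | ν t.1 k ∉ U t.1 t.2} n) (fun t n => by
    show |ind {k | ν t.1 k ∉ U t.1 t.2} n| ≤ 1
    unfold ind
    split_ifs <;> simp)
  refine ⟨E, hE, fun α hα hαE i => ?_⟩
  have key : ∀ j : ℕ, Null {k | ν i k ∉ U i j} ↔ Null {n | ν i ⌊α * (n : ℝ) ^ c⌋₊ ∉ U i j} := by
    intro j
    have h1 := h α hα hαE (i, j) 0
    have e1 : rav (fun n => ind {k | ν i k ∉ U i j} n) = fun N : ℕ => (count {k | ν i k ∉ U i j} N : ℝ) / N :=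
      funext fun N => rav_ind _ N
    have e2 : rav (fun n => ind {k | ν i k ∉ U i j} (Pool.Agent.Y854.PS.ms α c n)) =
        fun N : ℕ => (count {n | ν i ⌊α * (n : ℝ) ^ c⌋₊ ∉ U i j} N : ℝ) / N := by
      funext N
      rw [← rav_ind]
      unfold rav
      congr 1
    unfold Null
    rw [← e1, ← e2]
    exact h1
  have red : ∀ x : ℕ → ProbabilityMeasure M, (∀ V ∈ 𝓝 (μ i), Null {n | x n ∉ V}) ↔ ∀ j, Null {n | x n ∉ U i j} := by
    intro x
    constructor
    · intro h1 j
      exact h1 _ ((hU i).mem j)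
    · intro h1 V hV
      obtain ⟨j, hj⟩ := (hU i).mem_iff.1 hV
      rw [null_iff]
      intro ε hε
      obtain ⟨N₀, h2⟩ := (null_iff _).1 (h1 j) ε hε
      refine ⟨N₀, fun N hN => le_trans ?_ (h2 N hN)⟩
      exact_mod_cast count_mono (B := {n | x n ∉ V}) (B' := {n | x n ∉ U i j}) (N := N) fun n _ hn h3 => hn (hj h3)
  rw [conv_iff, conv_iff, red, red fun n => ν i ⌊α * (n : ℝ) ^ c⌋₊]
  exact forall_congr' key

end Pool.Agent.Results.MP_ed6ab2_an.AlongDilatedPowers
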